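import Pool.Agent.H547.P3.Rd1f0b8

set_option autoImplicit false

/-!
# `∑ C(2k,k)³ ≡ (-15/p) T_{-15}(p) ≡ (-255/p) T_{255}(p) (mod p³)` for `p ≡ 1, 2, 4 (mod 7)`

`z ↦ z²/(1-16z)³` sends `z = 1` and `z₁, z₂ = (47 ± 45 √-7)/8192` to `-1/15³`, and `z = 1/4096` to `1/255³`. A relation modulo
`p³` (with two derivative terms) between the truncated series of `C(2k,k)³ z^k` and of `C(2k,k) C(3k,k) C(6k,3k) w^k`, together
with the behaviour of the former under `z ↦ 1/(4096 z)`, shows that all derivative terms vanish at these points.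
-/

open Finset

namespace Pool.Agent.Results.MP_d1f0b8_nt.QOneModPCubed

/-- `a_k` -/
def a (k : ℕ) : ℕ := (2 * k).choose k * (3 * k).choose k * (6 * k).choose (3 * k)

/-- `S(p) = ∑_{0 ≤ k ≤ (p-1)/2} C(2k,k)³` -/
def S (p : ℕ) : ℚ := ∑ k ∈ range ((p - 1) / 2 + 1), ((2 * k).choose k : ℚ) ^ 3

/-- `T_m(p) = ∑_{0 ≤ k ≤ p-1} a_k / m^{3k}` -/
def T (m : ℤ) (p : ℕ) : ℚ := ∑ k ∈ range p, (a k : ℚ) / (m : ℚ) ^ (3 * k)

/-- congruence modulo `p³`: `x - y = p³ u` with `u` rational, `p` not dividing the denominator of `u` -/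
def Cong (p : ℕ) (x y : ℚ) : Prop := ∃ u : ℚ, ¬ p ∣ u.den ∧ x - y = (p : ℚ) ^ 3 * u

theorem result (p : ℕ) [Fact p.Prime] (hp3 : 3 < p) (h : p % 7 = 1 ∨ p % 7 = 2 ∨ p % 7 = 4) :
    Cong p (S p) ((legendreSym p (-15) : ℚ) * T (-15) p) ∧
    Cong p ((legendreSym p (-15) : ℚ) * T (-15) p) ((legendreSym p (-255) : ℚ) * T 255 p) := by
  have e : ∀ m, T m p = Pool.Agent.H547.P3.Rd1f0b8.T m p := by
    intro m
    unfold T Pool.Agent.H547.P3.Rd1f0b8.T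
    refine sum_congr rfl fun k _ => ?_
    unfold a
    push_cast
    ring
  rw [e, e]
  exact Pool.Agent.H547.P3.Rd1f0b8.main p hp3 h

end Pool.Agent.Results.MP_d1f0b8_nt.QOneModPCubed
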